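import Pool.Agent.H14R2.RD.S.EXB
import Pool.Agent.H14R2.RD.S.KL
import Pool.Agent.H14R2.RD.S.AW

namespace RC14
open scoped InnerProductSpace
open Finset

variable {G : Type*} [Group G] [Fintype G]
variable {V : Type*} [NormedAddCommGroup V] [InnerProductSpace ℂ V] [FiniteDimensional ℂ V]

namespace PSBaux

omit [Fintype G] [FiniteDimensional ℂ V] in
lemma cj_symm (ρ : G →* (V ≃ₗᵢ[ℂ] V)) (A : Module.End ℂ V) (hA : A.IsSymmetric) (z : G) :
    (cj ρ A z).IsSymmetric := by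
  intro v w
  have h1 : ∀ (g : G) (v w : V), ⟪ρ g v, w⟫_ℂ = ⟪v, ρ g⁻¹ w⟫_ℂ := by
    intro g v w
    have h2 : w = ρ g (ρ g⁻¹ w) := by
      rw [map_inv]
      exact ((ρ g).apply_symm_apply w).symm
    conv_lhs => rw [h2]
    exact (ρ g).inner_map_map _ _
  simp only [cj, Module.End.mul_apply, op_apply]
  rw [h1, hA, h1, inv_inv]

omit [FiniteDimensional ℂ V] in
lemma smul_symm (A : Module.End ℂ V) (hA : A.IsSymmetric) (t : ℝ) :
    ((t : ℂ) • A).IsSymmetric := by
  intro v w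
  rw [LinearMap.smul_apply, LinearMap.smul_apply, inner_smul_left, inner_smul_right,
    Complex.conj_ofReal, hA]

omit [FiniteDimensional ℂ V] in
lemma sum_symm {ι : Type*} (s : Finset ι) (A : ι → Module.End ℂ V)
    (hA : ∀ i ∈ s, (A i).IsSymmetric) : (∑ i ∈ s, A i).IsSymmetric := by
  intro v w
  rw [LinearMap.sum_apply, LinearMap.sum_apply, sum_inner, inner_sum]
  exact Finset.sum_congr rfl fun i hi => hA i hi v w

omit [FiniteDimensional ℂ V] in
lemma add_symm (A B : Module.End ℂ V) (hA : A.IsSymmetric) (hB : B.IsSymmetric) :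
    (A + B).IsSymmetric := by
  intro v w
  rw [LinearMap.add_apply, LinearMap.add_apply, inner_add_left, inner_add_right, hA, hB]

omit [Fintype G] [FiniteDimensional ℂ V] in
lemma cj_smul (ρ : G →* (V ≃ₗᵢ[ℂ] V)) (A : Module.End ℂ V) (c : ℂ) (g : G) :
    cj ρ (c • A) g = c • cj ρ A g := by
  unfold cj
  rw [mul_smul_comm, smul_mul_assoc]

omit [Fintype G] in
lemma rtr_cj (ρ : G →* (V ≃ₗᵢ[ℂ] V)) (A : Module.End ℂ V) (g : G) :
    rtr (cj ρ A g) = rtr A := by
  unfold rtr cj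
  rw [LinearMap.trace_mul_comm, ← mul_assoc, ← op_mul, inv_mul_cancel, op_one, one_mul]

omit [Fintype G] in
lemma rtr_ex_cj (ρ : G →* (V ≃ₗᵢ[ℂ] V)) (A : Module.End ℂ V) (g : G) :
    rtr (ex (cj ρ A g)) = rtr (ex A) := by
  rw [ex_conj, rtr_cj]

end PSBaux

open PSBaux

omit [Fintype G] in
theorem PS_symm (ρ : G →* (V ≃ₗᵢ[ℂ] V)) {q : ℕ} (z : Fin q → G) (A : Module.End ℂ V)
    (hA : A.IsSymmetric) : (PS ρ z A).IsSymmetric := by
  have h : PS ρ z A = (((1 / (2 * (q : ℝ)) : ℝ)) : ℂ) • ∑ i, (cj ρ A (z i) + cj ρ A (z i)⁻¹) := by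
    unfold PS
    push_cast
    rfl
  rw [h]
  exact smul_symm _ (sum_symm _ _ fun i _ => add_symm _ _ (cj_symm ρ A hA _) (cj_symm ρ A hA _)) _

omit [Fintype G] in
/-- averaging conjugates does not increase the exponential trace -/
theorem PS_jensen (ρ : G →* (V ≃ₗᵢ[ℂ] V)) {q : ℕ} (hq : 1 ≤ q) (z : Fin q → G)
    (A : Module.End ℂ V) (hA : A.IsSymmetric) (t : ℝ) :
    rtr (ex ((t : ℂ) • PS ρ z A)) ≤ rtr (ex ((t : ℂ) • A)) := by
  have hq0 : (0 : ℝ) < q := by exact_mod_cast hq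
  set B : Fin q × Bool → Module.End ℂ V := fun p =>
    cj ρ ((t : ℂ) • A) (if p.2 then z p.1 else (z p.1)⁻¹) with hB
  have hsum : (t : ℂ) • PS ρ z A = ∑ p : Fin q × Bool, ((1 / (2 * (q : ℝ)) : ℝ) : ℂ) • B p := by
    unfold PS
    rw [← Finset.smul_sum, Fintype.sum_prod_type, smul_comm]
    push_cast
    congr 1
    rw [Finset.smul_sum]
    refine Finset.sum_congr rfl fun i _ => ?_
    rw [Fintype.sum_bool]
    simp only [hB, if_true, Bool.false_eq_true, if_false, cj_smul, smul_add]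
  rw [hsum]
  refine (KL univ (fun _ => 1 / (2 * (q : ℝ))) (fun _ _ => by positivity) ?_ B
    (fun p => cj_symm ρ _ (smul_symm A hA t) _)).trans (le_of_eq ?_)
  · rw [Finset.sum_const, Finset.card_univ, Fintype.card_prod, Fintype.card_fin,
      Fintype.card_bool, nsmul_eq_mul]
    push_cast
    field_simp
  · simp only [hB, rtr_ex_cj]
    rw [Finset.sum_const, Finset.card_univ, Fintype.card_prod, Fintype.card_fin,
      Fintype.card_bool, nsmul_eq_mul]
    push_cast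
    field_simp

/-- expectation of the exponential trace over the letters -/
theorem PS_exp (ρ : G →* (V ≃ₗᵢ[ℂ] V)) (hirr : Irr ρ ⊤) {q : ℕ} (hq : 1 ≤ q)
    (A : Module.End ℂ V) (hA : A.IsSymmetric) (t : ℝ) :
    ∑ z : Fin q → G, rtr (ex ((t : ℂ) • PS ρ z (PS ρ z A))) ≤
      (Fintype.card G : ℝ) ^ q * Module.finrank ℂ V *
        (rtr (ex (((t / q : ℝ) : ℂ) • A)) / Module.finrank ℂ V) ^ q := by
  have hq0 : (0 : ℝ) < q := by exact_mod_cast hq
  have hqc : (q : ℂ) ≠ 0 := by exact_mod_cast hq0.ne'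
  set A' : Module.End ℂ V := ((t / q : ℝ) : ℂ) • A with hA'
  have hA's : A'.IsSymmetric := smul_symm A hA _
  have h1 : ∀ z : Fin q → G, rtr (ex ((t : ℂ) • PS ρ z (PS ρ z A))) ≤
      1 / 2 * rtr (ex (∑ i, cj ρ A' (z i))) + 1 / 2 * rtr (ex (∑ i, cj ρ A' (z⁻¹ i))) := by
    intro z
    refine (PS_jensen ρ hq z (PS ρ z A) (PS_symm ρ z A hA) t).trans ?_
    set B : Bool → Module.End ℂ V := fun b =>
      if b then ∑ i, cj ρ A' (z i) else ∑ i, cj ρ A' (z⁻¹ i) with hB
    have hsum : (t : ℂ) • PS ρ z A = ∑ b ∈ (univ : Finset Bool), ((1 / 2 : ℝ) : ℂ) • B b := by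
      rw [Fintype.sum_bool]
      simp only [hB, if_true, Bool.false_eq_true, if_false]
      unfold PS
      rw [← smul_add, ← Finset.sum_add_distrib, smul_smul]
      simp only [hA', cj_smul, ← smul_add]
      rw [← Finset.smul_sum, smul_smul]
      congr 1
      push_cast
      field_simp
    have h2 := KL univ (fun _ : Bool => (1 / 2 : ℝ)) (fun _ _ => by norm_num) (by norm_num) B
      (fun b => by
        simp only [hB]
        split_ifs
        · exact sum_symm _ _ fun i _ => cj_symm ρ _ hA's _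
        · exact sum_symm _ _ fun i _ => cj_symm ρ _ hA's _)
    rw [← hsum, Fintype.sum_bool] at h2
    simpa only [hB, if_true, Bool.false_eq_true, if_false] using h2
  have h3 := AWQ ρ hirr A' hA's q
  have h4 : ∑ z : Fin q → G, rtr (ex (∑ i, cj ρ A' (z⁻¹ i))) =
      ∑ z : Fin q → G, rtr (ex (∑ i, cj ρ A' (z i))) :=
    Fintype.sum_equiv (Equiv.inv (Fin q → G)) _ _ fun z => rfl
  calc ∑ z : Fin q → G, rtr (ex ((t : ℂ) • PS ρ z (PS ρ z A)))
      ≤ ∑ z : Fin q → G, (1 / 2 * rtr (ex (∑ i, cj ρ A' (z i))) +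
          1 / 2 * rtr (ex (∑ i, cj ρ A' (z⁻¹ i)))) := Finset.sum_le_sum fun z _ => h1 z
    _ = ∑ z : Fin q → G, rtr (ex (∑ i, cj ρ A' (z i))) := by
        rw [Finset.sum_add_distrib, ← Finset.mul_sum, ← Finset.mul_sum, h4]
        ring
    _ ≤ _ := h3

end RC14
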